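import Pool.Agent.Lib.H97C.Inst
import Pool.Agent.Lib.LD.Def

/-!
# H97C, file Y: two vertices of a 2-connected graph `(E, Y)` with at least 4 vertices are covered by
disjoint cycles of length at least 4
-/

set_option autoImplicit false

namespace H97C

open Finset H98M H85TF H75U

variable {V : Type} [DecidableEq V]

/-- The edges inside `Y`, as edges on the subtype. -/
def subE (E : Finset (Sym2 V)) (Y : Finset V) : Finset (Sym2 {v // v ∈ Y}) :=
  univ.filter fun e => Sym2.map Subtype.val e ∈ E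

theorem mem_subE {E : Finset (Sym2 V)} {Y : Finset V} {a b : {v // v ∈ Y}} :
    s(a, b) ∈ subE E Y ↔ s(a.1, b.1) ∈ E := by
  unfold subE
  rw [mem_filter]
  simp

theorem disc_subE {E : Finset (Sym2 V)} {Y : Finset V} {S : Finset {v // v ∈ Y}}
    (h : Disc S (subE E Y)) : Disc (S.map (Function.Embedding.subtype _)) E := by
  obtain ⟨C, D, hC, hD, hCD, hu, hno⟩ := h
  refine ⟨C.map (Function.Embedding.subtype _), D.map (Function.Embedding.subtype _),
    hC.map, hD.map, ?_, ?_, ?_⟩
  · rwa [disjoint_map]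
  · rw [← map_union, hu]
  · intro x hx y hy
    rw [mem_map] at hx hy
    obtain ⟨a, ha, rfl⟩ := hx
    obtain ⟨b, hb, rfl⟩ := hy
    exact fun h1 => hno a ha b hb (mem_subE.2 h1)

theorem cov4_subE {E : Finset (Sym2 V)} {Y : Finset V} {A : Finset {v // v ∈ Y}}
    (h : Cov4 (subE E Y) A) : Cov4 E (A.map (Function.Embedding.subtype _)) := by
  obtain ⟨F, hF, hN, hdg, hA⟩ := h
  have hinj : Function.Injective (Sym2.map (Subtype.val : {v // v ∈ Y} → V)) :=
    Sym2.map.injective Subtype.val_injective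
  have hmem : ∀ x y : V, s(x, y) ∈ F.image (Sym2.map Subtype.val) →
      ∃ (hx : x ∈ Y) (hy : y ∈ Y), s((⟨x, hx⟩ : {v // v ∈ Y}), ⟨y, hy⟩) ∈ F := by
    intro x y hxy
    obtain ⟨e, he, h1⟩ := mem_image.1 hxy
    induction e using Sym2.ind with
    | _ a b =>
      rw [Sym2.map_mk] at h1
      rcases Sym2.eq_iff.1 h1 with ⟨h2, h3⟩ | ⟨h2, h3⟩
      · subst h2; subst h3
        exact ⟨a.2, b.2, he⟩
      · subst h2; subst h3
        exact ⟨b.2, a.2, by rw [Sym2.eq_swap]; exact he⟩
  have hdeg : ∀ a : {v // v ∈ Y}, dg (F.image (Sym2.map Subtype.val)) a.1 = dg F a := by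
    intro a
    unfold dg
    have h1 : (F.image (Sym2.map Subtype.val)).filter (fun e => a.1 ∈ e) =
        (F.filter fun e => a ∈ e).image (Sym2.map Subtype.val) := by
      ext e
      rw [mem_filter, mem_image, mem_image]
      constructor
      · rintro ⟨⟨e', he', rfl⟩, h2⟩
        refine ⟨e', mem_filter.2 ⟨he', ?_⟩, rfl⟩
        obtain ⟨b, hb, hab⟩ := Sym2.mem_map.1 h2
        rwa [← Subtype.ext hab]
      · rintro ⟨e', he', rfl⟩
        rw [mem_filter] at he'
        exact ⟨⟨e', he'.1, rfl⟩, Sym2.mem_map.2 ⟨a, he'.2, rfl⟩⟩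
    rw [h1, card_image_of_injective _ hinj]
  refine ⟨F.image (Sym2.map Subtype.val), ?_, ?_, ?_, ?_⟩
  · intro e he
    obtain ⟨e', he', rfl⟩ := mem_image.1 he
    exact (mem_filter.1 (hF he')).2
  · intro x y z h1 h2 h3
    obtain ⟨hx, hy, h4⟩ := hmem x y h1
    obtain ⟨hy', hz, h5⟩ := hmem y z h2
    obtain ⟨hx', hz', h6⟩ := hmem x z h3
    exact hN _ _ _ h4 h5 h6
  · intro v
    by_cases hv : v ∈ Y
    · have h1 := hdeg ⟨v, hv⟩
      rw [h1]
      exact hdg _
    · left
      unfold dg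
      rw [card_eq_zero, filter_eq_empty_iff]
      intro e he hve
      obtain ⟨e', he', rfl⟩ := mem_image.1 he
      obtain ⟨b, hb, rfl⟩ := Sym2.mem_map.1 hve
      exact hv b.2
  · intro v hv
    obtain ⟨a, ha, rfl⟩ := mem_map.1 hv
    exact (hdeg a).trans (hA a ha)

/-- Any two vertices of a 2-connected graph `(E, Y)` with at least 4 vertices are covered by
disjoint cycles of length at least 4. -/
theorem cov4_two {E : Finset (Sym2 V)} {Y : Finset V} (hT : LD.TCY E Y) (h4 : 4 ≤ Y.card)
    {a b : V} (ha : a ∈ Y) (hb : b ∈ Y) : Cov4 E {a, b} := by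
  have hu : (univ : Finset {v // v ∈ Y}).map (Function.Embedding.subtype _) = Y := by
    ext v
    rw [mem_map]
    constructor
    · rintro ⟨w, -, rfl⟩
      exact w.2
    · exact fun hv => ⟨⟨v, hv⟩, mem_univ _, rfl⟩
  have h1 := pairs4 (E := subE E Y) ?_ ?_ ?_ ?_ ⟨a, ha⟩ ⟨b, hb⟩
  · have h2 := cov4_subE h1
    rw [map_insert, map_singleton] at h2
    exact h2
  · intro e he hd
    induction e using Sym2.ind with
    | _ x y =>
      rw [Sym2.mk_isDiag_iff] at hd
      subst hd
      exact hT.loop _ (mem_subE.1 he) (by simp)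
  · rw [Fintype.card_coe]
    exact h4
  · intro h
    have h2 := disc_subE h
    rw [hu] at h2
    exact hT.conn h2
  · intro z h
    have h2 := disc_subE h
    have h3 : (univ.erase z).map (Function.Embedding.subtype _) = Y.erase z.1 := by
      rw [map_erase, hu]
      rfl
    rw [h3] at h2
    exact hT.conn' z.1 z.2 h2

end H97C
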