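import Pool.Agent.Lib.H97C.Inst
import Pool.Agent.Lib.H98TF.DrawD

/-!
# H97C, file Draw: FORM C for simple drawings
-/

set_option autoImplicit false

open H53P SimpleDraw

namespace H97C

open Finset H98P H98Z H98M H63F H30F H63L H97W H98TF H85TF H75U

theorem gr_adj {n : ℕ} {F : Finset (Sym2 (Fin n))} {a b : Fin n} (h : (gr F).Adj a b) :
    s(a, b) ∈ F := by
  have h13 : s(a, b) ∈ (SimpleGraph.fromEdgeSet (F : Set (Sym2 (Fin n)))).edgeSet := h
  rw [SimpleGraph.edgeSet_fromEdgeSet] at h13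
  exact_mod_cast h13.1

theorem gr_cliqueFree {n : ℕ} {F : Finset (Sym2 (Fin n))} (hN : NT F) : (gr F).CliqueFree 3 := by
  intro T hT
  rw [SimpleGraph.is3Clique_iff] at hT
  obtain ⟨a, b, c, h1, h2, h3, -⟩ := hT
  exact hN a b c (gr_adj h1) (gr_adj h3) (gr_adj h2)

/-- FORM C: for every vertex `r` of a simple drawing of `K_n`, `n ≥ 4`, there is a plane subdrawing
`G` such that `G` and `G - r` are 2-connected, with a 2-connected subgraph `H` with exactly `2n - 3`
edges which contains a 2-factor `F` whose cycles have length at least 4. -/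
theorem formC {n : ℕ} (hn : 4 ≤ n) (D : SimpleDrawing n) (r : Fin n) :
    ∃ G H F : SimpleGraph (Fin n), D.Plane G ∧ F ≤ H ∧ H ≤ G ∧ H.Connected ∧
      (∀ v, (H.induce {w | w ≠ v}).Connected) ∧ H.edgeSet.ncard = 2 * n - 3 ∧
      (∀ q, (G.induce {w | w ≠ r ∧ w ≠ q}).Connected) ∧
      F.CliqueFree 3 ∧ ∀ v, (F.neighborSet v).ncard = 2 := by
  obtain ⟨S, G, -, -, hGL, hGP, hm, hT, ⟨F, hF, hN, -, h2⟩, hr⟩ := plane_R4
    (H53P.crossT_symm (H53P.table D)) (H98W.hd_table (H53P.table D))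
    (by rw [Fintype.card_fin]; exact hn) r
  have h3 : ∀ v, dg F v = 2 := fun v => h2 v (mem_univ _)
  have hd := not_diag_of_LW hGL
  obtain ⟨H, g1, g2, g3, g4, g5, g6⟩ := layer2 (by omega) D hGL hGP hT hF (fun v => (h3 v).le) hm
  refine ⟨gr G, H, gr F, g1, g6, g2, g3, g4, g5, fun q => ?_, gr_cliqueFree hN,
    fun v => (degree_gr (fun e he => hd e (hF he)) v).trans (h3 v)⟩
  have key : ∀ {U : Finset (Fin n)}, U.Nonempty → ¬ Disc U G → (∀ w, w ∈ U ↔ w ≠ r ∧ w ≠ q) →
      ((gr G).induce {w | w ≠ r ∧ w ≠ q}).Connected := by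
    intro U h1 h2 h3
    have h4 := induce_connected h1 h2
    have h5 : {w : Fin n | w ∈ U} = {w | w ≠ r ∧ w ≠ q} := by
      ext w
      exact h3 w
    rw [h5] at h4
    exact h4
  by_cases hq : q = r
  · subst hq
    refine key (U := univ.erase q) ?_ (hT.2 q) (fun w => by simp)
    rw [← card_pos, card_erase_of_mem (mem_univ _), card_univ, Fintype.card_fin]
    omega
  · refine key (U := (univ.erase r).erase q) ?_ (hr q hq) (fun w => by simp [and_comm])
    rw [← card_pos, card_erase_of_mem (mem_erase.2 ⟨hq, mem_univ _⟩),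
      card_erase_of_mem (mem_univ _), card_univ, Fintype.card_fin]
    omega

end H97C
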