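import Pool.Agent.Lib.H96TF.X
import Pool.Agent.Lib.H30D.S

/-!
# H97C, file E: uncoverable sets and sets separated by a cut vertex of `G - r`
-/

set_option autoImplicit false
set_option linter.unusedSectionVars false

namespace H97C

open Finset H98P H98Z H98M H63F H30F H96TF


variable {V : Type*} [Fintype V] [DecidableEq V]

/-- `q` separates `C` from `D` in `G - r`. -/
def Cut (G : Finset (Sym2 V)) (r q : V) (C D : Finset V) : Prop :=
  q ≠ r ∧ C ∪ D = (univ.erase r).erase q ∧ Disjoint C D ∧ ∀ a ∈ C, ∀ b ∈ D, s(a, b) ∉ G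

/-- `W` avoids `r` and is separated in `G - r` by a vertex outside `W`. -/
def Sep (G : Finset (Sym2 V)) (r : V) (W : Finset V) : Prop :=
  r ∉ W ∧ ∃ q C D, Cut G r q C D ∧ q ∉ W ∧ (C ∩ W).Nonempty ∧ (D ∩ W).Nonempty

theorem cut_symm {G : Finset (Sym2 V)} {r q : V} {C D : Finset V} (h : Cut G r q C D) :
    Cut G r q D C :=
  ⟨h.1, by rw [union_comm]; exact h.2.1, h.2.2.1.symm, fun a ha b hb => by
    rw [Sym2.eq_swap]
    exact h.2.2.2 b hb a ha⟩

theorem cut_cases {G : Finset (Sym2 V)} {r q : V} {C D : Finset V} (h : Cut G r q C D) {v : V}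
    (hr : v ≠ r) (hq : v ≠ q) : v ∈ C ∨ v ∈ D := by
  rw [← mem_union, h.2.1]
  exact mem_erase.2 ⟨hq, mem_erase.2 ⟨hr, mem_univ v⟩⟩

theorem cut_q {G : Finset (Sym2 V)} {r q : V} {C D : Finset V} (h : Cut G r q C D) :
    q ∉ C ∧ q ∉ D := by
  have h1 : q ∉ C ∪ D := by
    rw [h.2.1]
    exact notMem_erase q _
  rw [mem_union, not_or] at h1
  exact h1

theorem cut_r {G : Finset (Sym2 V)} {r q : V} {C D : Finset V} (h : Cut G r q C D) :
    r ∉ C ∧ r ∉ D := by
  have h1 : r ∉ C ∪ D := by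
    rw [h.2.1]
    exact fun h2 => notMem_erase r _ (mem_erase.1 h2).2
  rw [mem_union, not_or] at h1
  exact h1

theorem cut_anti {G G' : Finset (Sym2 V)} (hG : G ⊆ G') {r q : V} {C D : Finset V}
    (h : Cut G' r q C D) : Cut G r q C D :=
  ⟨h.1, h.2.1, h.2.2.1, fun a ha b hb hab => h.2.2.2 a ha b hb (hG hab)⟩

theorem sep_anti {G G' : Finset (Sym2 V)} (hG : G ⊆ G') {r : V} {W : Finset V}
    (h : Sep G' r W) : Sep G r W := by
  obtain ⟨h1, q, C, D, hc, h2, h3, h4⟩ := h
  exact ⟨h1, q, C, D, cut_anti hG hc, h2, h3, h4⟩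

/-- A set off `r`, `q` which meets both sides is disconnected. -/
theorem disc_of_cut {G : Finset (Sym2 V)} {r q : V} {C D W : Finset V} (hc : Cut G r q C D)
    (hr : r ∉ W) (hq : q ∉ W) (hC : (C ∩ W).Nonempty) (hD : (D ∩ W).Nonempty) : Disc W G := by
  refine ⟨C ∩ W, D ∩ W, hC, hD, ?_, ?_, ?_⟩
  · exact disjoint_of_subset_left inter_subset_left
      (disjoint_of_subset_right inter_subset_left hc.2.2.1)
  · ext v
    rw [mem_union, mem_inter, mem_inter]
    constructor
    · rintro (h | h) <;> exact h.2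
    · intro hv
      rcases cut_cases hc (fun h => hr (h ▸ hv)) (fun h => hq (h ▸ hv)) with h | h
      · exact Or.inl ⟨h, hv⟩
      · exact Or.inr ⟨h, hv⟩
  · exact fun a ha b hb => hc.2.2.2 a (mem_inter.1 ha).1 b (mem_inter.1 hb).1

theorem sep_disc {G : Finset (Sym2 V)} {r : V} {W : Finset V} (h : Sep G r W) : Disc W G := by
  obtain ⟨h1, q, C, D, hc, h2, h3, h4⟩ := h
  exact disc_of_cut hc h1 h2 h3 h4

private theorem noD {G : Finset (Sym2 V)} {r q q' : V} {C D C' D' Z : Finset V}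
    (hH : ¬ Disc (univ.erase r) G) (hc : Cut G r q C D) (hc' : Cut G r q' C' D')
    (hZ : Z ⊆ insert q C) (hD' : (D' ∩ Z).Nonempty) (hq : q ∈ C') : q' ∉ D := by
  intro hq'
  have hne : (D' ∩ C).Nonempty := by
    obtain ⟨v, hv⟩ := hD'
    rw [mem_inter] at hv
    refine ⟨v, mem_inter.2 ⟨hv.1, ?_⟩⟩
    rcases mem_insert.1 (hZ hv.2) with h | h
    · rw [h] at hv
      exact absurd hv.1 (disjoint_left.1 hc'.2.2.1 hq)
    · exact h
  refine hH ⟨D' ∩ C, (univ.erase r) \ (D' ∩ C), hne, ⟨q, ?_⟩, disjoint_sdiff, ?_, ?_⟩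
  · rw [mem_sdiff, mem_inter]
    exact ⟨mem_erase.2 ⟨hc.1, mem_univ q⟩, fun h => (cut_q hc).1 h.2⟩
  · refine union_sdiff_of_subset fun v hv => mem_erase.2 ⟨?_, mem_univ v⟩
    rintro rfl
    exact (cut_r hc).1 (mem_inter.1 hv).2
  · intro a ha b hb
    rw [mem_inter] at ha
    rw [mem_sdiff, mem_inter, mem_erase] at hb
    by_cases hbq : b = q
    · rw [hbq, Sym2.eq_swap]
      exact hc'.2.2.2 q hq a ha.1
    rcases cut_cases hc hb.1.1 hbq with h | h
    · have hbD' : b ∉ D' := fun h1 => hb.2 ⟨h1, h⟩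
      have hbq' : b ≠ q' := by
        rintro rfl
        exact disjoint_left.1 hc.2.2.1 h hq'
      rcases cut_cases hc' hb.1.1 hbq' with h1 | h1
      · rw [Sym2.eq_swap]
        exact hc'.2.2.2 b h1 a ha.1
      · exact absurd h1 hbD'
    · exact hc.2.2.2 a ha.2 b h

/-- EXTENSION across a cut. -/
theorem sep_ext {G : Finset (Sym2 V)} {r q : V} {C D Z T : Finset V}
    (hH : ¬ Disc (univ.erase r) G) (hc : Cut G r q C D) (hZ : Z ⊆ insert q C) (hs : Sep G r Z)
    (hZT : Z ⊆ T) (hTD : T ⊆ Z ∪ D) : Sep G r T := by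
  obtain ⟨h1, q', C', D', hc', h2, h3, h4⟩ := hs
  have hq' : q' ∉ D := by
    by_cases hqq : q = q'
    · rw [← hqq]
      exact (cut_q hc).2
    · rcases cut_cases hc' hc.1 hqq with h | h
      · exact noD hH hc hc' hZ h4 h
      · exact noD hH hc (cut_symm hc') hZ h3 h
  refine ⟨fun h => ?_, q', C', D', hc', fun h => ?_, ?_, ?_⟩
  · rcases mem_union.1 (hTD h) with h5 | h5
    · exact h1 h5
    · exact (cut_r hc).2 h5
  · rcases mem_union.1 (hTD h) with h5 | h5
    · exact h2 h5
    · exact hq' h5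
  · exact h3.mono (inter_subset_inter_left hZT)
  · exact h4.mono (inter_subset_inter_left hZT)

private theorem conn_part' {G : Finset (Sym2 V)} {r q : V} {C D M X Y : Finset V}
    (hM : ¬ Disc M G) (hr : r ∉ M) (hc : Cut G r q C D) (hqM : q ∈ M)
    (hY : Y.Nonempty) (hXY : Disjoint X Y)
    (hu : X ∪ Y = insert q (C ∩ M)) (h : ∀ x ∈ X, ∀ y ∈ Y, s(x, y) ∉ G) (hqX : q ∈ X) : False := by
  have hYs : ∀ y ∈ Y, y ∈ C ∧ y ∈ M := by
    intro y hy
    have h1 : y ∈ insert q (C ∩ M) := hu ▸ mem_union_right X hy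
    rcases mem_insert.1 h1 with h2 | h2
    · rw [h2] at hy
      exact absurd hy (disjoint_left.1 hXY hqX)
    · exact mem_inter.1 h2
  refine hM ⟨Y, M \ Y, hY, ⟨q, mem_sdiff.2 ⟨hqM, disjoint_left.1 hXY hqX⟩⟩, disjoint_sdiff,
    union_sdiff_of_subset fun y hy => (hYs y hy).2, ?_⟩
  intro a ha b hb
  rw [mem_sdiff] at hb
  have hbX : b ∈ C → b ∈ X := fun hbC => by
    have h1 : b ∈ X ∪ Y := by
      rw [hu]
      exact mem_insert_of_mem (mem_inter.2 ⟨hbC, hb.1⟩)
    exact (mem_union.1 h1).resolve_right hb.2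
  by_cases hbq : b = q
  · rw [hbq, Sym2.eq_swap]
    exact h q hqX a ha
  rcases cut_cases hc (fun h1 => hr (h1 ▸ hb.1)) hbq with h1 | h1
  · rw [Sym2.eq_swap]
    exact h b (hbX h1) a ha
  · exact hc.2.2.2 a (hYs a ha).1 b h1

/-- One side of a connected set, with `q`, is connected. -/
theorem conn_part {G : Finset (Sym2 V)} {r q : V} {C D M : Finset V}
    (hM : ¬ Disc M G) (hr : r ∉ M) (hc : Cut G r q C D) (hqM : q ∈ M) :
    ¬ Disc (insert q (C ∩ M)) G := by
  rintro ⟨X, Y, hX, hY, hXY, hu, h⟩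
  have hq : q ∈ X ∪ Y := by
    rw [hu]
    exact mem_insert_self q _
  rcases mem_union.1 hq with h1 | h1
  · exact conn_part' hM hr hc hqM hY hXY hu h h1
  · refine conn_part' hM hr hc hqM hX hXY.symm (by rw [union_comm]; exact hu) ?_ h1
    intro x hx y hy
    rw [Sym2.eq_swap]
    exact h y hy x hx

/-- LEMMA E: the lower part of a connected set off `r`. -/
theorem lemE {G : Finset (Sym2 V)} {r : V} {U : Finset V → Prop}
    (hup : ∀ A B, A ⊆ B → U A → U B) (hH : ¬ Disc (univ.erase r) G)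
    (h0 : ¬ U ∅) (h1 : ∀ v, ¬ U {v})
    (base : ∀ M, r ∉ M → ¬ Disc M G → U M → AC (Ch fun W : Finset V => U W ∧ W ⊂ M)) :
    ∀ (k : ℕ) (M : Finset V), M.card ≤ k → r ∉ M → ¬ Disc M G →
      (U M ∨ ∃ q C D, Cut G r q C D ∧ (C ∩ M).Nonempty ∧ (D ∩ M).Nonempty) →
      AC (Ch fun W : Finset V => (U W ∨ Sep G r W) ∧ W ⊂ M) := by
  intro k
  induction k with
  | zero =>
    intro M hk _ _ hM
    have hM0 : M = ∅ := card_eq_zero.1 (by omega)
    subst hM0
    rcases hM with h | ⟨q, C, D, -, h, -⟩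
    · exact absurd h h0
    · rw [inter_empty] at h
      exact absurd h not_nonempty_empty
  | succ k ih =>
    intro M hk hr hM hU
    by_cases hcut : ∃ q C D, Cut G r q C D ∧ (C ∩ M).Nonempty ∧ (D ∩ M).Nonempty
    · obtain ⟨q, C, D, hc, hCM, hDM⟩ := hcut
      have hqM : q ∈ M := by
        by_contra hq
        exact hM (disc_of_cut hc hr hq hCM hDM)
      have hqC := cut_q hc
      have hsmall : ∀ W : Finset V, W ⊆ {q} → ¬ (U W ∨ Sep G r W) := by
        rintro W hW (h | h)
        · exact h1 q (hup _ _ hW h)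
        · obtain ⟨-, q', C', D', hc', -, ⟨a, ha⟩, ⟨b, hb⟩⟩ := h
          rw [mem_inter] at ha hb
          have ha1 := mem_singleton.1 (hW ha.2)
          have hb1 := mem_singleton.1 (hW hb.2)
          rw [ha1] at ha
          rw [hb1] at hb
          exact disjoint_left.1 hc'.2.2.1 ha.1 hb.1
      have hside : ∀ C D : Finset V, Cut G r q C D → (D ∩ M).Nonempty →
          (∀ W, W ⊆ M → W ⊆ C ∪ {q} → (U W ∨ Sep G r W) → ∀ B, B ⊆ M ∩ D →
            (U (W ∪ B) ∨ Sep G r (W ∪ B))) ∧
          ((U (M ∩ (C ∪ {q})) ∨ Sep G r (M ∩ (C ∪ {q}))) →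
            AC (Ch fun W : Finset V => (U W ∨ Sep G r W) ∧ W ⊂ M ∩ (C ∪ {q}))) := by
        intro C D hc hDM
        have hins : C ∪ {q} = insert q C := by
          rw [union_comm]
          rfl
        have hext : ∀ W, W ⊆ C ∪ {q} → (U W ∨ Sep G r W) → ∀ B, B ⊆ M ∩ D →
            (U (W ∪ B) ∨ Sep G r (W ∪ B)) := by
          rintro W h5 (h6 | h6) B hB
          · exact Or.inl (hup _ _ subset_union_left h6)
          · refine Or.inr (sep_ext hH hc (hins ▸ h5) h6 subset_union_left ?_)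
            exact union_subset_union_right fun b hb => (mem_inter.1 (hB hb)).2
        refine ⟨fun W _ => hext W, fun hP => ?_⟩
        have hMC : M ∩ (C ∪ {q}) = insert q (C ∩ M) := by
          ext v
          simp only [mem_inter, mem_union, mem_singleton, mem_insert]
          constructor
          · rintro ⟨h5, h6 | h6⟩
            · exact Or.inr ⟨h6, h5⟩
            · exact Or.inl h6
          · rintro (h5 | h5)
            · rw [h5]
              exact ⟨hqM, Or.inr rfl⟩
            · exact ⟨h5.2, Or.inl h5.1⟩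
        have hlt : (M ∩ (C ∪ {q})).card < M.card := by
          refine card_lt_card (ssubset_of_subset_of_ne inter_subset_left ?_)
          intro h5
          obtain ⟨d, hd⟩ := hDM
          rw [mem_inter] at hd
          have h6 : d ∈ M ∩ (C ∪ {q}) := by
            rw [h5]
            exact hd.2
          rcases mem_union.1 (mem_inter.1 h6).2 with h7 | h7
          · exact disjoint_left.1 hc.2.2.1 h7 hd.1
          · rw [mem_singleton.1 h7] at hd
            exact (cut_q hc).2 hd.1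
        refine ih _ (by omega) (fun h5 => hr (mem_inter.1 h5).1) ?_ ?_
        · rw [hMC]
          exact conn_part hM hr hc hqM
        · rcases hP with h5 | h5
          · exact Or.inl h5
          · exfalso
            have h6 := sep_ext (T := M) hH hc
              (fun v hv => hins ▸ (mem_inter.1 hv).2) h5 inter_subset_left ?_
            · exact hM (sep_disc h6)
            · intro v hv
              rw [mem_union, mem_inter, hins, mem_insert]
              by_cases hvq : v = q
              · exact Or.inl ⟨hv, Or.inl hvq⟩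
              · rcases cut_cases hc (fun h => hr (h ▸ hv)) hvq with h7 | h7
                · exact Or.inl ⟨hv, Or.inr h7⟩
                · exact Or.inr h7
      have hs1 := hside C D hc hDM
      have hs2 := hside D C (cut_symm hc) hCM
      refine H30D.step_i (P := fun W => U W ∨ Sep G r W) (Cc := C) (Dd := D) (Z := {q})
        hc.2.2.1 (disjoint_singleton_right.2 hqC.1) (disjoint_singleton_right.2 hqC.2)
        ?_ (by rwa [inter_comm]) (by rwa [inter_comm]) ⟨q, mem_inter.2 ⟨hqM, mem_singleton_self q⟩⟩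
        ?_ hsmall hs1.1 hs2.1 hs1.2 hs2.2
      · intro v hv
        rw [mem_union, mem_union, mem_singleton]
        by_cases hvq : v = q
        · exact Or.inr hvq
        · exact Or.inl (cut_cases hc (fun h => hr (h ▸ hv)) hvq)
      · intro W hW hWZ hWC hWD
        exact Or.inr ⟨fun h => hr (hW h), q, C, D, hc, disjoint_singleton_right.1 hWZ,
          by rwa [inter_comm], by rwa [inter_comm]⟩
    · have hUM : U M := hU.resolve_right hcut
      refine ac_congr (fun t => ?_) (base M hr hM hUM)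
      constructor
      · exact ch_mono fun W hW => ⟨Or.inl hW.1, hW.2⟩
      · refine ch_mono fun W hW => ⟨?_, hW.2⟩
        rcases hW.1 with h | ⟨-, q, C, D, hc, -, h3, h4⟩
        · exact h
        · exact absurd ⟨q, C, D, hc, h3.mono (inter_subset_inter_left hW.2.1),
            h4.mono (inter_subset_inter_left hW.2.1)⟩ hcut

/-- THE FAMILY OF FORM C IS ACYCLIC. -/
theorem ac_XR (G : Finset (Sym2 V)) (r : V) (Pi : Finset V → Prop)
    (dn : ∀ A B, A ⊆ B → Pi B → Pi A) (hpair : ∀ v, Pi (insert v {r}))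
    (E : ∀ (A : Finset V) (b d : V) (U : Finset V), Pi (insert b A) → Pi (insert d A) → b ∈ U →
      d ∈ U → ¬ Disc U G → (∀ u ∈ U, u ≠ b → u ≠ d → ¬ Pi (insert u A)) →
      Pi (insert b (insert d A)))
    (hH : ¬ Disc (univ.erase r) G)
    (h : ¬ Pi univ ∨ ∃ q, q ≠ r ∧ Disc ((univ.erase r).erase q) G) :
    AC (Ch fun W : Finset V => (¬ Pi (insert r W) ∨ Sep G r W) ∧ Disc W G) := by
  have hup : ∀ A B : Finset V, A ⊆ B → ¬ Pi (insert r A) → ¬ Pi (insert r B) :=
    fun A B hAB hA hB => hA (dn _ _ (insert_subset_insert r hAB) hB)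
  have h1 : ∀ v, ¬ ¬ Pi (insert r {v}) := by
    intro v hv
    refine hv ?_
    rw [pair_comm]
    exact hpair v
  have h0 : ¬ ¬ Pi (insert r ∅) := fun hv => hv (dn _ _ (insert_subset_insert r (empty_subset {r}))
    (by have := hpair r; exact this))
  have base : ∀ M, r ∉ M → ¬ Disc M G → ¬ Pi (insert r M) →
      AC (Ch fun W : Finset V => ¬ Pi (insert r W) ∧ W ⊂ M) := by
    intro M hr hM hU
    have hne : M.Nonempty := by
      rw [nonempty_iff_ne_empty]
      rintro rfl
      exact h0 hU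
    obtain ⟨w, hw⟩ := hne
    have hun : ∀ W : Finset V, W ∪ {r} = insert r W := fun W => by
      rw [union_comm]
      rfl
    refine ac_congr (fun t => ?_) (ac_nf dn E M.card M {r} rfl hM ⟨w, hw, hpair w⟩
      (by rwa [hun]))
    constructor
    · exact ch_mono fun W hW => ⟨by rw [← hun]; exact hW.2.2, ssubset_of_subset_of_ne hW.1 hW.2.1⟩
    · exact ch_mono fun W hW => ⟨hW.2.1, hW.2.ne, by rw [hun]; exact hW.1⟩
  by_cases hV : Pi univ
  · obtain ⟨q, hqr, hD⟩ := h.resolve_left (fun h => h hV)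
    obtain ⟨C, D, hC, hD, hCD, hu, hno⟩ := hD
    have hc : Cut G r q C D := ⟨hqr, hu, hCD, hno⟩
    have h2 := lemE hup hH h0 h1 base (univ.erase r).card (univ.erase r) le_rfl
      (notMem_erase r _) hH (Or.inr ⟨q, C, D, hc, ?_, ?_⟩)
    · refine ac_congr (fun t => ?_) h2
      constructor
      · refine ch_mono fun W hW => ⟨hW.1, ?_⟩
        rcases hW.1 with h3 | h3
        · exact absurd (dn _ _ (subset_univ _) hV) h3
        · exact sep_disc h3
      · refine ch_mono fun W hW => ⟨hW.1, ?_⟩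
        rcases hW.1 with h3 | h3
        · exact absurd (dn _ _ (subset_univ _) hV) h3
        · refine ssubset_of_subset_of_ne (fun v hv => mem_erase.2 ⟨?_, mem_univ v⟩) ?_
          · rintro rfl
            exact h3.1 hv
          · rintro rfl
            exact hH (sep_disc h3)
    · obtain ⟨c, hc1⟩ := hC
      exact ⟨c, mem_inter.2 ⟨hc1, mem_erase.2 ⟨fun h => (cut_r hc).1 (h ▸ hc1), mem_univ c⟩⟩⟩
    · obtain ⟨c, hc1⟩ := hD
      exact ⟨c, mem_inter.2 ⟨hc1, mem_erase.2 ⟨fun h => (cut_r hc).2 (h ▸ hc1), mem_univ c⟩⟩⟩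
  · refine H30D.remove_univ (P := fun W => ¬ Pi (insert r W) ∨ Sep G r W) ?_
      (Or.inl fun h => hV (dn _ _ (subset_insert r univ) h))
    intro M hM hd
    have hUM : ¬ Pi (insert r M) := hM.resolve_right fun h => hd (sep_disc h)
    by_cases hr : r ∈ M
    · have he : ∀ y : Finset V, (¬ Pi (insert r y) ∨ Sep G r y) → y ⊂ M →
          ((¬ Pi (insert r (y.erase r)) ∨ Sep G r (y.erase r)) ∧ y.erase r ⊂ M) ∧
            r ∉ y.erase r := by
        intro y hy hyM
        refine ⟨⟨?_, lt_of_le_of_lt (erase_subset r y) hyM⟩, notMem_erase r y⟩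
        rcases hy with h3 | h3
        · left
          by_cases hry : r ∈ y
          · rw [insert_erase hry]
            rwa [insert_eq_of_mem hry] at h3
          · rwa [erase_eq_of_notMem hry]
        · right
          rwa [erase_eq_of_notMem h3.1]
      refine H30D.ac_low_rev (X := fun W => ((¬ Pi (insert r W) ∨ Sep G r W) ∧ W ⊂ M) ∧ r ∉ W)
        (fun x hx => hx.1) ?_ ?_
      · intro y hy
        refine ac_ch_cone (a := y.erase r) ⟨he y hy.1 hy.2, erase_subset r y⟩ ?_
        rintro x ⟨⟨-, hx⟩, hxy⟩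
        exact Or.inr fun v hv => mem_erase.2 ⟨fun h => hx (h ▸ hv), hxy hv⟩
      · refine ac_ch_cone (a := M.erase r) ⟨⟨Or.inl ?_, erase_ssubset hr⟩, notMem_erase r M⟩ ?_
        · rw [insert_erase hr]
          rwa [insert_eq_of_mem hr] at hUM
        · rintro x ⟨⟨-, hxM⟩, hx⟩
          exact Or.inr fun v hv => mem_erase.2 ⟨fun h => hx (h ▸ hv), hxM.1 hv⟩
    · exact lemE hup hH h0 h1 base M.card M le_rfl hr hd (Or.inl hUM)

end H97C
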