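import Pool.Agent.Lib.H97C.E
import Pool.Agent.Lib.H98TF.Gen
import Pool.Agent.Lib.H63T.Fex

/-!
# H97C, file Gen: the functor step for FORM C
-/

set_option autoImplicit false

namespace H97C

open Finset H98P H98Z H98M H63F H30F H98TF

variable {V : Type*} [Fintype V] [DecidableEq V]

/-- THE FUNCTOR STEP with a vertex `r`: `G` and `G - r` are 2-connected. -/
theorem genericR {cross : Sym2 V → Sym2 V → Prop} (hsymm : ∀ e f, cross e f → cross f e)
    (hHD : ∀ W, HD cross W) (h2 : 2 ≤ Fintype.card V) (r : V)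
    (Pi : Finset (Sym2 V) → Finset V → Prop)
    (mono : ∀ G G' : Finset (Sym2 V), G ⊆ G' → G' ⊆ LW univ → TC G → ∀ A, Pi G A → Pi G' A)
    (dn : ∀ G : Finset (Sym2 V), G ⊆ LW univ → TC G → ∀ A B : Finset V, A ⊆ B → Pi G B → Pi G A)
    (hp : ∀ G : Finset (Sym2 V), G ⊆ LW univ → TC G → ∀ v, Pi G (insert v {r}))
    (E : ∀ G : Finset (Sym2 V), G ⊆ LW univ → TC G → ∀ (A : Finset V) (b d : V) (U : Finset V),
      Pi G (insert b A) → Pi G (insert d A) → b ∈ U → d ∈ U → ¬ Disc U G →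
      (∀ u ∈ U, u ≠ b → u ≠ d → ¬ Pi G (insert u A)) → Pi G (insert b (insert d A))) :
    ∃ S G : Finset (Sym2 V), S.Nonempty ∧ S ⊆ G ∧ G ⊆ LW univ ∧ Plane cross G ∧
      2 * Fintype.card V ≤ G.card + 3 ∧ TC G ∧ Pi G univ ∧
      ∀ q, q ≠ r → ¬ Disc ((univ.erase r).erase q) G := by
  have hV : ∃ x y : V, x ≠ y := by
    obtain ⟨x, y, h⟩ := Fintype.exists_pair_of_one_lt_card (α := V) (by omega)
    exact ⟨x, y, h⟩
  obtain ⟨S, G, hS0, hSG, hGL, hGp, hcard, hac⟩ := H63T.functor_2n3 hsymm hHD hV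
    (fun G W => (TC G → ¬ Pi G (insert r W) ∨ Sep G r W) ∧ Disc W G)
    (fun G G' hGG hG' _ _ W hW => ⟨fun hT => by
      rcases hW.1 (tc_mono hGG hT) with h | h
      · exact Or.inl fun hP => h (mono G G' hGG hG' hT _ hP)
      · exact Or.inr (sep_anti hGG h), H85TF.disc_anti hGG hW.2⟩)
    (fun G W _ _ _ h => h.2)
  have hSL : S ⊆ LW univ := hSG.trans hGL
  have hTS : TC S := by
    by_contra hT
    refine absurd ?_ hac
    have h3 : (fun W : Finset V => (TC S → ¬ Pi S (insert r W) ∨ Sep S r W) ∧ Disc W S) =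
        fun W => Disc W S := by
      funext W
      exact propext ⟨fun h => h.2, fun h => ⟨fun h5 => absurd h5 hT, h⟩⟩
    rw [h3]
    refine H30D.ac_disc S ?_
    by_contra hcon
    rw [not_or, not_exists] at hcon
    exact hT hcon
  have hmain : ¬ (¬ Pi S univ ∨ ∃ q, q ≠ r ∧ Disc ((univ.erase r).erase q) S) := by
    intro h
    refine hac ?_
    have h3 := ac_XR S r (Pi S) (dn S hSL hTS) (hp S hSL hTS) (E S hSL hTS) (hTS.2 r) h
    have h4 : (fun W : Finset V => (¬ Pi S (insert r W) ∨ Sep S r W) ∧ Disc W S) =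
        fun W => (TC S → ¬ Pi S (insert r W) ∨ Sep S r W) ∧ Disc W S := by
      funext W
      exact propext ⟨fun h => ⟨fun _ => h.1, h.2⟩, fun h => ⟨h.1 hTS, h.2⟩⟩
    rw [h4] at h3
    exact h3
  rw [not_or, not_not] at hmain
  refine ⟨S, G, hS0, hSG, hGL, hGp, hcard, tc_mono hSG hTS, mono S G hSG hGL hTS _ hmain.1, ?_⟩
  intro q hq hD
  exact hmain.2 ⟨q, hq, H85TF.disc_anti hSG hD⟩

end H97C
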