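import Pool.Agent.Lib.H97C.Gen
import Pool.Agent.Lib.H75U.Abs
import Pool.Agent.Lib.H36R.CQ

/-!
# H97C, file Inst: FORM C for coverings by disjoint cycles of length at least 4
-/

set_option autoImplicit false

namespace H97C

open Finset H98P H98Z H98M H63F H30F H98TF H85TF H75U

variable {V : Type} [Fintype V] [DecidableEq V]

/-- Any two vertices of a 2-connected graph with at least 4 vertices are covered by disjoint
cycles of length at least 4. -/
theorem pairs4 {E : Finset (Sym2 V)} (hE : ∀ e ∈ E, ¬ e.IsDiag) (h4 : 4 ≤ Fintype.card V)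
    (hc : ¬ Disc univ E) (hcut : ∀ z, ¬ Disc (univ.erase z) E) (z w : V) :
    Cov4 E (insert z {w}) := by
  by_cases hzw : z = w
  · subst hzw
    rw [pair_eq_singleton]
    exact cov4_vertex hE h4 hc hcut z
  by_cases hn : s(z, w) ∈ E
  · have hd : ¬ Disc ({z, w} : Finset V) E := by
      rintro ⟨C, D, ⟨c, hc⟩, ⟨d, hd⟩, hCD, hu, hno⟩
      have h1 : c ∈ ({z, w} : Finset V) := hu ▸ mem_union_left D hc
      have h2 : d ∈ ({z, w} : Finset V) := hu ▸ mem_union_right C hd
      have h3 := hno c hc d hd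
      rw [mem_insert, mem_singleton] at h1 h2
      rcases h1 with rfl | rfl <;> rcases h2 with rfl | rfl
      · exact disjoint_left.1 hCD hc hd
      · exact h3 hn
      · rw [Sym2.eq_swap] at h3
        exact h3 hn
      · exact disjoint_left.1 hCD hc hd
    refine exch4_set (A := ∅) (U := {z, w}) hE ?_ ?_ (mem_insert_self _ _)
      (mem_insert_of_mem (mem_singleton_self w)) hd ?_
    · exact cov4_vertex hE h4 hc hcut z
    · exact cov4_vertex hE h4 hc hcut w
    · intro u hu h5 h6
      rw [mem_insert, mem_singleton] at hu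
      exact absurd hu (not_or.2 ⟨h5, h6⟩)
  · obtain ⟨F, hF, hT, hdg, h1, h2⟩ := H36R.cov_pair_tf hE hc hcut hzw hn
    refine ⟨F, hF, hT, hdg, fun v hv => ?_⟩
    rw [mem_insert, mem_singleton] at hv
    rcases hv with rfl | rfl
    · exact h1
    · exact h2

/-- FORM C, abstract: `G` and `G - r` are 2-connected, and `G` has a 2-factor without triangles. -/
theorem plane_R4 {cross : Sym2 V → Sym2 V → Prop} (hsymm : ∀ e f, cross e f → cross f e)
    (hHD : ∀ W, HD cross W) (h4 : 4 ≤ Fintype.card V) (r : V) :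
    ∃ S G : Finset (Sym2 V), S.Nonempty ∧ S ⊆ G ∧ G ⊆ LW univ ∧ Plane cross G ∧
      2 * Fintype.card V ≤ G.card + 3 ∧ TC G ∧ Cov4 G univ ∧
      ∀ q, q ≠ r → ¬ Disc ((univ.erase r).erase q) G :=
  genericR hsymm hHD (by omega) r Cov4
    (fun _ _ hGG _ _ _ h => cov4_edges hGG h)
    (fun _ _ _ _ _ hAB hB => cov4_sub hAB hB)
    (fun _ hG hT v => pairs4 (not_diag_of_LW hG) h4 hT.1 hT.2 v r)
    (fun _ hG _ _ _ _ _ hb hd hbU hdU hU hin =>
      exch4_set (not_diag_of_LW hG) hb hd hbU hdU hU hin)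

end H97C
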